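import Mathlib
import Pool.Agent.Helper64.PX3.Window

set_option autoImplicit false

/-! # The final numerical inequality of the endgame (`k ≥ 4`, `n ≥ k + 3`) -/

namespace Pool.Agent.Helper16.PX

open Real Pool.Agent.Helper64.PX3

lemma log_ratio (k : ℝ) (hk : 0 < k) :
    log 2 - 1 / (2 * k) ≤ log (2 / (1 + 1 / (2 * k))) := by
  have hp : (0 : ℝ) < 1 + 1 / (2 * k) := by positivity
  rw [log_div (by norm_num) hp.ne']
  have := log_le_sub_one_of_pos hp
  linarith

lemma log_two_mul (k : ℝ) (hk : 0 < k) : log (2 * k) ≤ 4 * log 2 + k / 8 - 1 := by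
  have e : 2 * k = 2 ^ 4 * (k / 8) := by ring
  rw [e, log_mul (by norm_num) (by positivity), log_pow]
  have := log_le_sub_one_of_pos (show 0 < k / 8 by positivity)
  push_cast
  linarith

lemma pow_bd1 (k : ℕ) (hk : 5 ≤ k) :
    ((16 : ℝ) + k) * (k + 1) * (k + 2) * (3 / 16) ≤ 5.2 * 2 ^ k := by
  induction k, hk using Nat.le_induction with
  | base => norm_num
  | succ k hk ih =>
    have h5 : (5 : ℝ) ≤ k := by exact_mod_cast hk
    push_cast
    rw [pow_succ]
    nlinarith [mul_nonneg (show (0:ℝ) ≤ k - 5 by linarith) (show (0:ℝ) ≤ k by linarith),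
      mul_nonneg (mul_nonneg (show (0:ℝ) ≤ k - 5 by linarith) (show (0:ℝ) ≤ k by linarith)) (show (0:ℝ) ≤ k by linarith)]

lemma pow_bd2 (k : ℕ) (hk : 5 ≤ k) : (1.4 * (k : ℝ) + 1) ≤ 2 ^ k / 4 := by
  induction k, hk using Nat.le_induction with
  | base => norm_num
  | succ k hk ih =>
    have h5 : (5 : ℝ) ≤ k := by exact_mod_cast hk
    push_cast
    rw [pow_succ]
    linarith

lemma pow_bd3 (k : ℕ) (hk : 5 ≤ k) : (32 : ℝ) ≤ 2 ^ k := by
  calc (32 : ℝ) = 2 ^ 5 := by norm_num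
    _ ≤ 2 ^ k := pow_le_pow_right₀ (by norm_num) hk

/-- the case `k = 4` -/
lemma num_four (s N : ℝ) (hs0 : 0 ≤ s) (hs : s ≤ 0.159) (hN : 15 ≤ N) :
    log (2 * (4 : ℝ)) * N * (s + (10 / 4 ^ 4) / (1 - 2 * 0.159))
      < 2 * N * log (2 / (1 + 1 / (2 * (4 : ℝ)))) - 4 * (4 + 1) * log 2
        + (1 - s) * (2 * 4 * log 2) - s := by
  have h1 := log_ratio 4 (by norm_num)
  have h2 := log_two_gt_d9
  have h3 := log_two_lt_d9
  have h8 : log (2 * (4 : ℝ)) = 3 * log 2 := by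
    rw [show (2 * (4 : ℝ)) = 2 ^ 3 by norm_num, log_pow]; push_cast; ring
  rw [h8]
  set L := log 2
  set R := log (2 / (1 + 1 / (2 * (4 : ℝ))))
  have hR : 0.568 ≤ R := by norm_num at h1 ⊢; linarith
  have hq : s + (10 / 4 ^ 4) / (1 - 2 * 0.159) ≤ 0.2163 := by norm_num; linarith
  set q := s + (10 / 4 ^ 4) / (1 - 2 * 0.159 : ℝ)
  have hq0 : 0 ≤ q := by simp only [q]; positivity
  have hLq : L * q ≤ 0.6932 * 0.2163 := mul_le_mul (by linarith) hq hq0 (by norm_num)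
  have hc : 0.68 ≤ 2 * R - 3 * (L * q) := by linarith
  have hNc : 15 * 0.68 ≤ N * (2 * R - 3 * (L * q)) :=
    mul_le_mul hN hc (by norm_num) (by linarith)
  have hsL : s * L ≤ 0.159 * 0.6932 := mul_le_mul hs (by linarith) (by linarith) (by norm_num)
  nlinarith

/-- the case `k ≥ 5` -/
lemma num_five (k : ℕ) (hk : 5 ≤ k) (s N : ℝ) (hs0 : 0 ≤ s) (hs : s ≤ 2.6 / 2 ^ k)
    (hN : ((k : ℝ) + 1) * (k + 2) / 2 ≤ N) :
    log (2 * (k : ℝ)) * N * (s + (10 / 4 ^ k) / (1 - 2 * (2.6 / 2 ^ k)))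
      < 2 * N * log (2 / (1 + 1 / (2 * (k : ℝ)))) - k * (k + 1) * log 2
        + (1 - s) * (2 * k * log 2) - s := by
  have h5 : (5 : ℝ) ≤ k := by exact_mod_cast hk
  have h1 := log_ratio k (by linarith)
  have h1' := log_two_mul k (by linarith)
  have h2 := log_two_gt_d9
  have h3 := log_two_lt_d9
  have hP := pow_bd3 k hk
  have hb1 := pow_bd1 k hk
  have hb2 := pow_bd2 k hk
  have hl0 : 0 ≤ log (2 * (k : ℝ)) := log_nonneg (by linarith)
  set L := log 2
  set R := log (2 / (1 + 1 / (2 * (k : ℝ))))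
  set l := log (2 * (k : ℝ))
  have h4 : (4 : ℝ) ^ k = 2 ^ k * 2 ^ k := by rw [← mul_pow]; norm_num
  set P := (2 : ℝ) ^ k
  have hP0 : 0 < P := by linarith
  rw [h4]
  -- the second term of q
  have hG : (10 / (P * P)) / (1 - 2 * (2.6 / P)) ≤ 0.4 / P := by
    have h52 : 2.6 / P ≤ 2.6 / 32 := div_le_div_of_nonneg_left (by norm_num) (by norm_num) hP
    have hd : (0.8375 : ℝ) ≤ 1 - 2 * (2.6 / P) := by norm_num at h52 ⊢; linarith
    rw [div_le_iff₀ (by linarith)]
    have h6 : 10 / (P * P) ≤ (10 / 32) / P := by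
      rw [← div_div]
      exact div_le_div_of_nonneg_right
        (div_le_div_of_nonneg_left (by norm_num) (by norm_num) hP) hP0.le
    have h7 : 0.4 / P * 0.8375 ≤ 0.4 / P * (1 - 2 * (2.6 / P)) :=
      mul_le_mul_of_nonneg_left hd (by positivity)
    have h8 : (10 / 32) / P ≤ 0.4 / P * 0.8375 := by
      rw [div_mul_eq_mul_div]
      exact div_le_div_of_nonneg_right (by norm_num) hP0.le
    linarith
  have hG0 : 0 ≤ (10 / (P * P)) / (1 - 2 * (2.6 / P)) := by
    have h52 : 2.6 / P ≤ 2.6 / 32 := div_le_div_of_nonneg_left (by norm_num) (by norm_num) hP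
    have hd : (0 : ℝ) ≤ 1 - 2 * (2.6 / P) := by norm_num at h52 ⊢; linarith
    exact div_nonneg (by positivity) hd
  set G := (10 / (P * P)) / (1 - 2 * (2.6 / P))
  have hq : s + G ≤ 3 / P := by
    have : 2.6 / P + 0.4 / P = 3 / P := by rw [← add_div]; norm_num
    linarith
  have hq0 : 0 ≤ s + G := by linarith
  have hPi : 1 / P ≤ 1 / 32 := div_le_div_of_nonneg_left (by norm_num) (by norm_num) hP
  have hPi0 : 0 < 1 / P := by positivity
  have e3 : 3 / P = 3 * (1 / P) := by ring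
  have e26 : 2.6 / P = 2.6 * (1 / P) := by ring
  rw [e3] at hq
  rw [e26] at hs
  set i := 1 / P
  have hiP : i * P = 1 := by simp only [i]; field_simp
  -- `l (s + G) (k+1)(k+2)/2 ≤ 5.2`
  have hA : l ≤ (16 + k) / 8 := by
    have : 4 * L ≤ 3 := by linarith
    linarith
  have hlq : l * (s + G) ≤ (16 + k) / 8 * (3 * i) :=
    mul_le_mul hA hq hq0 (by positivity)
  have herr : ((k : ℝ) + 1) * (k + 2) / 2 * (l * (s + G)) ≤ 5.2 := by
    calc ((k : ℝ) + 1) * (k + 2) / 2 * (l * (s + G))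
        ≤ ((k : ℝ) + 1) * (k + 2) / 2 * ((16 + k) / 8 * (3 * i)) :=
          mul_le_mul_of_nonneg_left hlq (by positivity)
      _ = i * (((16 : ℝ) + k) * (k + 1) * (k + 2) * (3 / 16)) := by ring
      _ ≤ i * (5.2 * P) := mul_le_mul_of_nonneg_left hb1 hPi0.le
      _ = 5.2 := by linear_combination 5.2 * hiP
  have hs2 : s * (1.4 * k + 1) ≤ 0.65 := by
    calc s * (1.4 * k + 1) ≤ (2.6 * i) * (P / 4) :=
          mul_le_mul hs hb2 (by positivity) (by positivity)
      _ = 0.65 := by linear_combination 0.65 * hiP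
  have hsL : s * (2 * k * L) + s ≤ 0.65 := by
    have : s * (2 * k * L) ≤ s * (2 * k * 0.7) :=
      mul_le_mul_of_nonneg_left (mul_le_mul_of_nonneg_left (by linarith) (by positivity)) hs0
    nlinarith
  -- the coefficient of `N`
  have hik : (1 : ℝ) / (2 * k) ≤ 0.1 := by
    rw [div_le_iff₀ (by linarith)]; linarith
  have hlq2 : l * (s + G) ≤ 0.25 := by
    have h0 : 0 ≤ l * (s + G) := mul_nonneg hl0 hq0
    have : (21 : ℝ) ≤ ((k : ℝ) + 1) * (k + 2) / 2 := by nlinarith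
    nlinarith
  have hc : 0 ≤ 2 * R - l * (s + G) := by linarith
  have hNc : ((k : ℝ) + 1) * (k + 2) / 2 * (2 * R - l * (s + G)) ≤ N * (2 * R - l * (s + G)) :=
    mul_le_mul_of_nonneg_right hN hc
  have hR : ((k : ℝ) + 1) * (k + 2) * (L - 1 / (2 * k)) ≤ (k + 1) * (k + 2) * R :=
    mul_le_mul_of_nonneg_left h1 (by positivity)
  have hinv : ((k : ℝ) + 1) * (k + 2) * (1 / (2 * k)) = k / 2 + 3 / 2 + 1 / k := by
    field_simp; ring
  have hinv2 : (1 : ℝ) / k ≤ 1 / 5 := div_le_div_of_nonneg_left (by norm_num) (by norm_num) h5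
  have hfin : (0.6931 : ℝ) * (4 * k + 2) ≤ L * (4 * k + 2) :=
    mul_le_mul_of_nonneg_right (by linarith) (by linarith)
  nlinarith

theorem final_num (k : ℕ) (hk : 4 ≤ k) (s N : ℝ) (hs0 : 0 ≤ s) (hs : s ≤ sb k)
    (hN : ((k : ℝ) + 1) * (k + 2) / 2 ≤ N) :
    log (2 * (k : ℝ)) * N * (s + (10 / 4 ^ k) / (1 - 2 * sb k))
      < 2 * N * log (2 / (1 + 1 / (2 * (k : ℝ)))) - k * (k + 1) * log 2
        + (1 - s) * (2 * k * log 2) - s := by
  rcases Nat.lt_or_ge 4 k with h | h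
  · have hne : k ≠ 4 := by omega
    have e : sb k = 2.6 / 2 ^ k := by simp [sb, hne]
    rw [e] at hs ⊢
    exact num_five k h s N hs0 hs hN
  · obtain rfl : k = 4 := by omega
    have e : sb 4 = 0.159 := by simp [sb]
    rw [e] at hs ⊢
    have := num_four s N hs0 hs (by norm_num at hN; linarith)
    exact_mod_cast this

end Pool.Agent.Helper16.PX
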