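import Mathlib

set_option autoImplicit false

/-! # The window for `k = 3` -/

namespace Pool.Agent.Helper16.PX

theorem window3 (c : ℝ) (hc0 : 0 < c) (hc1 : c < 1)
    (h : (1 - c ^ 3) * (1 - (1 - c) ^ 3) ≤ 4 ^ 3 * (c ^ 3 * (1 - c) ^ 3)) :
    c ^ 3 + (1 - c) ^ 3 ≤ 0.3455 ∧ 0.3216 ≤ c ∧ c ≤ 0.6784 := by
  set P := c * (1 - c) with hP
  have hP0 : 0 < P := mul_pos hc0 (by linarith)
  have e1 : (1 - c ^ 3) * (1 - (1 - c) ^ 3) = 3 * P + P ^ 3 := by rw [hP]; ring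
  have e2 : c ^ 3 * (1 - c) ^ 3 = P ^ 3 := by rw [hP]; ring
  have e3 : c ^ 3 + (1 - c) ^ 3 = 1 - 3 * P := by rw [hP]; ring
  rw [e1, e2] at h
  have h2 : P * 3 ≤ P * (63 * P ^ 2) := by nlinarith
  have h3 : 3 ≤ 63 * P ^ 2 := le_of_mul_le_mul_left h2 hP0
  have h4 : 0.21818 ≤ P := by
    by_contra hcon
    have hcon' : P < 0.21818 := lt_of_not_ge hcon
    nlinarith
  refine ⟨by rw [e3]; linarith, ?_, ?_⟩
  · by_contra hcon
    have hcon' : c < 0.3216 := lt_of_not_ge hcon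
    have : P < 0.21818 := by rw [hP]; nlinarith
    linarith
  · by_contra hcon
    have hcon' : 0.6784 < c := lt_of_not_ge hcon
    have : P < 0.21818 := by rw [hP]; nlinarith
    linarith

end Pool.Agent.Helper16.PX
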